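import Pool.Agent.Run7.h891.Ftw

/-! Q1 of MP_d65884_co (are the graphs of finite tree-width well-quasi-ordered under minors?) is
equivalent to better-quasi-ordering, and to the well-quasi-ordering of the connected graphs of
finite tree-width. The same holds for the countable graphs (Thomas' conjecture) and for every class
of graphs closed under minors, cones and hub sums.

The definitions are in `Pool/Agent/Run7/h891/Defs.lean` and `Defs4.lean`. -/

set_option autoImplicit false

namespace Pool.Agent.Results.MP_d65884_co.FiniteTreeWidthWqoIffBqo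

open Run7.h891

theorem result :
    [WqoOn {G | FiniteTreeWidth G.2},
      BqoOn {G | FiniteTreeWidth G.2},
      WqoOn {G | FiniteTreeWidth G.2 ∧ G.2.Connected}].TFAE ∧
    [WqoOn {G | Countable G.1},
      BqoOn {G | Countable G.1},
      WqoOn {G | Countable G.1 ∧ G.2.Connected}].TFAE ∧
    ∀ K : Set Gph, ClosedUnderMinors K → ClosedUnderHubSums K →
      (WqoOn {G | G ∈ K ∧ G.2.Connected} → BqoOn {G | G ∈ K ∧ TwoConnected G.2}) ∧
      (ClosedUnderCones K → WqoOn {G | G ∈ K ∧ G.2.Connected} → BqoOn K) := by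
  refine ⟨?_, ?_, fun K h1 h2 => ⟨Cls.two_bqo h1 h2, fun h3 => Cls.cone_bqo h1 h2 h3⟩⟩
  · have h := Cls.ftw_tfae
    tfae_have 1 ↔ 2 := h.out 1 2
    tfae_have 1 ↔ 3 := h.out 1 0
    tfae_finish
  · have h := Cls.countable_tfae
    tfae_have 1 ↔ 2 := h.out 1 2
    tfae_have 1 ↔ 3 := h.out 1 0
    tfae_finish

end Pool.Agent.Results.MP_d65884_co.FiniteTreeWidthWqoIffBqo
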